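import Pool.Agent.Y522.Stm2
import Pool.Agent.Y522.Tools

/-!
# Engulfing in level sets (project SH of helper522, job 798)
-/

set_option autoImplicit false

open Set Filter Topology Metric Function MeasureTheory
open scoped Manifold ContDiff

noncomputable section

namespace Pool.Agent.Y252.SH

open Pool.Agent.Y522

theorem slice (hL : StLevel) (hA : StAdapt) : StSlice := by
  intro m hE X _ _ _ W φ T T' hW hφ hφd hT hT' hT'1 hT'2 hT'3 K hK hKW
  have hflat : LocFlat m {x : X | x ∈ W ∧ φ x = 0} := by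
    rintro x ⟨hxW, hx0⟩
    have h1 : ∀ᶠ y in 𝓝 x, ContMDiffAt (𝓡 (m + 1)) 𝓘(ℝ, ℝ) ∞ φ y := by
      filter_upwards [hW.mem_nhds hxW] with y hy
      exact hφ y hy
    obtain ⟨e, he1, he2, he3⟩ := hA m X φ x h1 (hφd x hxW hx0)
    refine ⟨e, he1, ?_⟩
    filter_upwards [he3, hW.mem_nhds hxW] with y hy hyW
    rw [hy, hx0, sub_zero]
    exact ⟨fun h => h.2, fun h => ⟨hyW, h⟩⟩
  obtain ⟨cs, hm, hv, hvd⟩ := hL m X {x : X | x ∈ W ∧ φ x = 0} hflat
  let _ := cs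
  have _ := hm
  let H : {x : X | x ∈ W ∧ φ x = 0} ≃ₜ E m :=
    { toFun := fun s => T s.1
      invFun := fun y => ⟨T' y, hT'1 y⟩
      left_inv := fun s => Subtype.ext (hT'3 s.1 s.2.1 s.2.2)
      right_inv := fun y => hT'2 y
      continuous_toFun := continuous_iff_continuousAt.2 fun s =>
        (hT s.1 s.2.1 s.2.2).continuousAt.comp continuousAt_subtype_val
      continuous_invFun := hT'.subtype_mk _ }
  have hH : ContMDiff (𝓡 m) (𝓡 m) ∞ H := fun s => (hT s.1 s.2.1 s.2.2).comp s (hv s)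
  have hKc : IsCompact (Subtype.val ⁻¹' K : Set {x : X | x ∈ W ∧ φ x = 0}) := by
    rw [Topology.IsInducing.subtypeVal.isCompact_iff]
    have h2 : (Subtype.val '' (Subtype.val ⁻¹' K : Set {x : X | x ∈ W ∧ φ x = 0})) = K := by
      rw [Subtype.image_preimage_coe]
      exact inter_eq_right.2 fun x hx => hKW x hx
    rw [h2]
    exact hK
  obtain ⟨g, hgi, hgd, hKg⟩ := hE {x : X | x ∈ W ∧ φ x = 0} H hH _ hKc
  have hgm : ContMDiff (𝓡 m) (𝓡 m) ∞ g := fun x => (hgd x).contMDiffAt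
  -- radius
  have hO : ∀ j : ℕ, IsOpen (g '' ball 0 ((j : ℝ) + 1)) := fun j =>
    isOpen_image_of_LD isOpen_ball fun x _ => hgd x
  obtain ⟨t, ht⟩ := hKc.elim_finite_subcover (fun j : ℕ => g '' ball 0 ((j : ℝ) + 1)) hO (by
    intro s hs
    obtain ⟨y, rfl⟩ := hKg hs
    obtain ⟨j, hj⟩ := exists_nat_gt ‖y‖
    exact mem_iUnion.2 ⟨j, y, by simpa using hj.trans (by linarith), rfl⟩)
  refine ⟨fun x => (g x).1, ((t.sup id : ℕ) : ℝ) + 1, ?_, ?_, ?_, ?_, ?_⟩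
  · exact Subtype.val_injective.comp hgi
  · exact hv.comp hgm
  · intro x
    have h2 : mfderiv (𝓡 m) (𝓡 (m + 1)) (Subtype.val ∘ g) x =
        (mfderiv (𝓡 m) (𝓡 (m + 1)) (Subtype.val : {x : X | x ∈ W ∧ φ x = 0} → X) (g x)).comp
          (mfderiv (𝓡 m) (𝓡 m) g x) :=
      mfderiv_comp x (hv.mdifferentiableAt (by simp)) (hgd x).mdifferentiableAt
    intro a b hab
    change mfderiv (𝓡 m) (𝓡 (m + 1)) (Subtype.val ∘ g) x a =
      mfderiv (𝓡 m) (𝓡 (m + 1)) (Subtype.val ∘ g) x b at hab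
    rw [h2] at hab
    exact (hgd x).mfderiv_injective (hvd (g x) hab)
  · intro x
    exact (g x).2
  · intro x hx
    have hs : (⟨x, hKW x hx⟩ : {x : X | x ∈ W ∧ φ x = 0}) ∈
        (Subtype.val ⁻¹' K : Set {x : X | x ∈ W ∧ φ x = 0}) := hx
    obtain ⟨j, hj⟩ := mem_iUnion.1 (ht hs)
    obtain ⟨hjt, y, hy, hyx⟩ := mem_iUnion.1 hj
    refine ⟨y, ?_, congrArg Subtype.val hyx⟩
    have h1 : j ≤ t.sup id := Finset.le_sup (f := id) hjt
    have h2 : (j : ℝ) ≤ ((t.sup id : ℕ) : ℝ) := by exact_mod_cast h1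
    rw [mem_closedBall_zero_iff]
    rw [mem_ball_zero_iff] at hy
    linarith

end Pool.Agent.Y252.SH
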